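import Pool.Agent.H17.Gr5

namespace Pool.Agent.Results.MP_7a7825_ag.Disconnected
open Pool.Agent.H17.Gr

theorem result : ∃ (m : ℕ) (h : Fin m → (Fin 6 → ℝ)),
    IsPositivePolytope h ∧ ¬ IsConnected (S h) ∧ ¬ ContractibleSpace (S h) := by
  refine ⟨1, h0, isPos0, fun hc => not_preconn hc.2, fun hc => not_preconn ?_⟩
  exact isPreconnected_iff_preconnectedSpace.2 inferInstance

end Pool.Agent.Results.MP_7a7825_ag.Disconnected
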